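import Pool.Agent.Run7.h454.RB.E3

/-!
# The pointwise inequality for `p ≥ 400 n ^ 2` (helper454)
-/

set_option autoImplicit false

open Finset

namespace Pool.Agent.Run7.h454.RB

open Pool.Agent.Y282.RB

theorem sq_diff' {x y d : ℝ} (hx : 0 ≤ x) (h : |y - x| ≤ d) : x ^ 2 - y ^ 2 ≤ 2 * x * d := by
  have h2 := (abs_le.1 h).1
  nlinarith [sq_nonneg (y - x), mul_le_mul_of_nonneg_left (show x - y ≤ d by linarith) hx]

/-- the third estimate -/
theorem est3 {σ : ℝ} (h0 : 0 < σ) (h1 : σ ≤ 1 / 2) {m n : ℕ} (hm : 1 ≤ m) (hmn : m ≤ n) (γ : ℕ → ℝ)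
    (hΛ : Lam σ n γ = 1) (hγ : 0 ≤ γ 0) :
    (γ 0) ^ 2 - 1 ≤ σ * (6 * γ 0 * Real.sqrt (TT n γ) * m +
      (γ 0) ^ 2 * ∑ j ∈ Ico m n, (1 / (j : ℝ) + 1 / ((j : ℝ) + 1))) := by
  have hn : 1 ≤ n := hm.trans hmn
  set D := Real.sqrt (TT n γ) with hD
  have hD0 : 0 ≤ D := Real.sqrt_nonneg _
  set x := γ 0 with hx
  have hK0 : 0 < kk σ 0 := kk_pos h0 h1 0
  have hK : kk σ 0 ≤ KK σ n := by
    unfold KK
    exact single_le_sum (f := fun j => kk σ j) (fun j _ => (kk_pos h0 h1 j).le) (mem_range.2 hn)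
  have hKpos : 0 < KK σ n := hK0.trans_le hK
  have hsum : ∑ j ∈ range n, kk σ j * (yy σ γ j) ^ 2 = KK σ n := by
    unfold Lam at hΛ
    rwa [div_eq_one_iff_eq hKpos.ne'] at hΛ
  have e1 : KK σ n * (x ^ 2 - 1) = ∑ j ∈ range n, kk σ j * (x ^ 2 - (yy σ γ j) ^ 2) := by
    simp only [mul_sub]
    rw [sum_sub_distrib, hsum, ← sum_mul]
    unfold KK
    ring
  have hxD : 0 ≤ x * D := mul_nonneg hγ hD0
  have h13 : 1 ≤ kk σ 0 * σ := by
    rw [kk_zero]
    have : 0 < 1 - σ := by linarith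
    rw [div_mul_eq_mul_div, one_mul, le_div_iff₀ (by positivity)]
    nlinarith
  set S := ∑ j ∈ Ico m n, (1 / (j : ℝ) + 1 / ((j : ℝ) + 1)) with hS
  have hS0 : 0 ≤ S := sum_nonneg fun j _ => by positivity
  rw [range_eq_Ico, sum_eq_sum_Ico_succ_bot (by omega), ← sum_Ico_consecutive _ hm hmn] at e1
  -- the three parts
  have p1 : kk σ 0 * (x ^ 2 - (yy σ γ 0) ^ 2) ≤ kk σ 0 * σ * (2 * (x * D)) := by
    have h2 := sq_diff' hγ (y0_dist h0 n γ hn)
    have h3 := mul_le_mul_of_nonneg_left h2 hK0.le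
    rw [← hD] at h3
    linarith
  have p2 : ∑ j ∈ Ico 1 m, kk σ j * (x ^ 2 - (yy σ γ j) ^ 2) ≤ kk σ 0 * σ * (6 * (x * D) * ((m : ℝ) - 1)) := by
    have h2 : ∀ j ∈ Ico 1 m, kk σ j * (x ^ 2 - (yy σ γ j) ^ 2) ≤ 6 * (x * D) := by
      intro j hj
      rw [mem_Ico] at hj
      obtain ⟨i, rfl⟩ : ∃ i, j = i + 1 := ⟨j - 1, by omega⟩
      have h3 := sq_diff' hγ (y_dist h0 h1 n γ (lt_of_lt_of_le hj.2 hmn))
      rw [← hD] at h3
      have hi : (0 : ℝ) ≤ i := Nat.cast_nonneg i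
      have h4 := kk_succ h0 h1 i
      have h5 : 2 * x * ((((i + 1 : ℕ) : ℝ) + 1) * D) = 2 * (x * D) * (i + 2) := by push_cast; ring
      rw [h5] at h3
      calc kk σ (i + 1) * (x ^ 2 - (yy σ γ (i + 1)) ^ 2)
          ≤ kk σ (i + 1) * (2 * (x * D) * (i + 2)) := mul_le_mul_of_nonneg_left h3 (kk_pos h0 h1 _).le
        _ ≤ (1 / ((i : ℝ) + 1) + 1 / ((i : ℝ) + 2)) * (2 * (x * D) * (i + 2)) := by gcongr
        _ = 2 * (x * D) * ((2 * i + 3) / (i + 1)) := by field_simp; ring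
        _ ≤ 2 * (x * D) * 3 := by
            gcongr
            rw [div_le_iff₀ (by positivity)]
            linarith
        _ = _ := by ring
    have h3 := sum_le_card_nsmul (Ico 1 m) _ _ h2
    rw [Nat.card_Ico, nsmul_eq_mul, Nat.cast_sub hm, Nat.cast_one] at h3
    have hm1 : 0 ≤ (m : ℝ) - 1 := by
      have : (1 : ℝ) ≤ m := by exact_mod_cast hm
      linarith
    calc _ ≤ ((m : ℝ) - 1) * (6 * (x * D)) := h3
      _ = 1 * (6 * (x * D) * ((m : ℝ) - 1)) := by ring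
      _ ≤ _ := by gcongr
  have p3 : ∑ j ∈ Ico m n, kk σ j * (x ^ 2 - (yy σ γ j) ^ 2) ≤ kk σ 0 * σ * (x ^ 2 * S) := by
    have h2 : ∑ j ∈ Ico m n, kk σ j * (x ^ 2 - (yy σ γ j) ^ 2) ≤ x ^ 2 * S := by
      rw [hS, mul_sum]
      refine sum_le_sum fun j hj => ?_
      rw [mem_Ico] at hj
      have h3 := kk_le h0 h1 (hm.trans hj.1)
      calc kk σ j * (x ^ 2 - (yy σ γ j) ^ 2) ≤ kk σ j * x ^ 2 := by
            apply mul_le_mul_of_nonneg_left _ (kk_pos h0 h1 _).le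
            nlinarith [sq_nonneg (yy σ γ j)]
        _ ≤ (1 / (j : ℝ) + 1 / ((j : ℝ) + 1)) * x ^ 2 := by gcongr
        _ = _ := by ring
    calc _ ≤ x ^ 2 * S := h2
      _ = 1 * (x ^ 2 * S) := by ring
      _ ≤ _ := by gcongr
  have e2 : KK σ n * (x ^ 2 - 1) ≤ kk σ 0 * (σ * (6 * x * D * m + x ^ 2 * S)) := by
    have : 0 ≤ kk σ 0 * σ * (4 * (x * D)) := by positivity
    nlinarith
  have hR : 0 ≤ σ * (6 * x * D * m + x ^ 2 * S) := by positivity
  rcases le_total (x ^ 2 - 1) 0 with h | h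
  · exact h.trans hR
  · have e3 : kk σ 0 * (x ^ 2 - 1) ≤ KK σ n * (x ^ 2 - 1) := by gcongr
    exact le_of_mul_le_mul_left (e3.trans e2) hK0

theorem exp_four : Real.exp 4 ≤ 54.7 := by
  have h := Real.exp_one_lt_d9
  have e : Real.exp 4 = Real.exp 1 ^ 4 := by
    rw [← Real.exp_nat_mul]
    norm_num
  rw [e]
  calc Real.exp 1 ^ 4 ≤ 2.7182818286 ^ 4 := by gcongr
    _ ≤ _ := by norm_num

theorem exp_half : Real.exp 3.5 ≤ 33.3 := by
  have h := Real.exp_one_lt_d9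
  have e : Real.exp 3.5 ^ 2 = Real.exp 1 ^ 7 := by
    rw [← Real.exp_nat_mul, ← Real.exp_nat_mul]
    norm_num
  have h2 : Real.exp 3.5 ^ 2 ≤ 33.3 ^ 2 := by
    rw [e]
    calc Real.exp 1 ^ 7 ≤ 2.7182818286 ^ 7 := by gcongr
      _ ≤ _ := by norm_num
  exact le_of_sq_le_sq h2 (by norm_num)

theorem rpow_le_exp {r b : ℝ} (hr : 0 ≤ r) (hb : 0 < b) : b ^ r ≤ Real.exp (r * (b - 1)) := by
  rw [Real.rpow_def_of_pos hb, mul_comm]
  have := Real.log_le_sub_one_of_pos hb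
  gcongr

/-- the pointwise inequality, normalised, `γ 0 ^ 2 ≤ 1` -/
theorem caseA {n : ℕ} {p : ℝ} (hn : 1 ≤ n) (hp : 400 * (n : ℝ) ^ 2 ≤ p) (γ : ℕ → ℝ)
    (hΛ : Lam (1 / p) n γ = 1) (hγ : 0 ≤ γ 0) (hb : (γ 0) ^ 2 ≤ 1) :
    ph (p / 2) ((γ 0) ^ 2) ≤ (p / 2 - 1) * TT n γ := by
  have hn1 : (1 : ℝ) ≤ n := by exact_mod_cast hn
  have hn2 : (1 : ℝ) ≤ (n : ℝ) ^ 2 := by nlinarith
  have hp1 : 400 ≤ p := by linarith
  have hp0 : 0 < p := by linarith
  set σ := 1 / p with hσ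
  have h0 : 0 < σ := by positivity
  have hσp : σ * p = 1 := by rw [hσ]; field_simp
  have h400 : 400 * (n : ℝ) ^ 2 * σ ≤ 1 := by
    rw [← hσp, mul_comm]
    gcongr
  have h1 : σ ≤ 1 / 2 := by nlinarith
  have hE := est1 h0 h1 n hn γ hΛ hγ
  set D := Real.sqrt (TT n γ) with hD
  have hD0 : 0 ≤ D := Real.sqrt_nonneg _
  have hDD : D ^ 2 = TT n γ := Real.sq_sqrt (C0.TT_nonneg n γ)
  rw [← hDD] at hE ⊢
  set x := γ 0 with hx
  have hx1 : x ≤ 1 := by nlinarith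
  have hr2 : (2 : ℝ) ≤ p / 2 := by linarith
  have hr1 : 0 ≤ p / 2 - 1 := by linarith
  have hb0 : 0 ≤ x ^ 2 := sq_nonneg _
  -- `1 - b ≤ σ (6 z + 3 z ^ 2)`
  have h2 : 1 - x ^ 2 ≤ σ * (6 * (n * D) + 3 * (n * D) ^ 2) := by
    have h3 := (abs_le.1 hE).1
    have h4 : σ * (6 * n * x * D + 3 * (n : ℝ) ^ 2 * D ^ 2) ≤ σ * (6 * (n * D) + 3 * (n * D) ^ 2) := by
      have h5 : 6 * n * x * D ≤ 6 * n * 1 * D := by gcongr
      apply mul_le_mul_of_nonneg_left _ h0.le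
      nlinarith
    linarith
  have hz0 : 0 ≤ (n : ℝ) * D := by positivity
  -- comparison of `z ^ 2 σ` and `D ^ 2`
  have hzD : 400 * (σ * (n * D) ^ 2) ≤ D ^ 2 := by
    have : 400 * (σ * (n * D) ^ 2) = (400 * (n : ℝ) ^ 2 * σ) * D ^ 2 := by ring
    rw [this]
    calc _ ≤ 1 * D ^ 2 := by gcongr
      _ = _ := one_mul _
  rcases le_total ((n : ℝ) * D) 1 with hz | hz
  · have h3 : 1 - x ^ 2 ≤ 9 * σ * (n * D) := by nlinarith
    have h4 := (E0.main.1 (p / 2) (x ^ 2) hr2 hb0 hb).1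
    have h5 : (1 - x ^ 2) ^ 2 ≤ (9 * σ * (n * D)) ^ 2 := by
      have : 0 ≤ 1 - x ^ 2 := by linarith
      gcongr
    calc ph (p / 2) (x ^ 2) ≤ p / 2 * (p / 2 - 1) / 2 * (1 - x ^ 2) ^ 2 := h4
      _ ≤ p / 2 * (p / 2 - 1) / 2 * (9 * σ * (n * D)) ^ 2 := by
          apply mul_le_mul_of_nonneg_left h5
          positivity
      _ = (p / 2 - 1) * (81 / 4 * (σ * p) * (σ * (n * D) ^ 2)) := by ring
      _ ≤ (p / 2 - 1) * D ^ 2 := by
          apply mul_le_mul_of_nonneg_left _ hr1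
          rw [hσp]
          have : 0 ≤ σ * (n * D) ^ 2 := by positivity
          linarith
  · have h3 : 1 - x ^ 2 ≤ 9 * (σ * (n * D) ^ 2) := by
      have h4 : n * D ≤ (n * D) ^ 2 := by nlinarith
      have h5 : σ * (6 * (n * D) + 3 * (n * D) ^ 2) ≤ σ * (6 * (n * D) ^ 2 + 3 * (n * D) ^ 2) := by gcongr
      linarith
    have h6 : ph (p / 2) (x ^ 2) ≤ (p / 2 - 1) * (1 - x ^ 2) := by
      have h7 : (x ^ 2) ^ (p / 2) ≤ x ^ 2 := by
        rcases hb0.eq_or_lt with h | h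
        · rw [← h, Real.zero_rpow (by linarith)]
        · calc (x ^ 2) ^ (p / 2) ≤ (x ^ 2) ^ (1 : ℝ) :=
                Real.rpow_le_rpow_of_exponent_ge h hb (by linarith)
            _ = x ^ 2 := Real.rpow_one _
      unfold ph
      nlinarith
    refine h6.trans ?_
    apply mul_le_mul_of_nonneg_left _ hr1
    have : 0 ≤ σ * (n * D) ^ 2 := by positivity
    linarith

/-- the pointwise inequality, normalised, `1 ≤ γ 0 ^ 2` -/
theorem caseB {n : ℕ} {p : ℝ} (hn : 1 ≤ n) (hp : 400 * (n : ℝ) ^ 2 ≤ p) (γ : ℕ → ℝ)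
    (hΛ : Lam (1 / p) n γ = 1) (hγ : 0 ≤ γ 0) (hb : 1 ≤ (γ 0) ^ 2) (hγn : (γ n) ^ 2 ≤ (γ 0) ^ 2) :
    ph (p / 2) ((γ 0) ^ 2) ≤ (p / 2 - 1) * TT n γ := by
  have hn1 : (1 : ℝ) ≤ n := by exact_mod_cast hn
  have hn2 : (1 : ℝ) ≤ (n : ℝ) ^ 2 := by nlinarith
  have hp1 : 400 ≤ p := by linarith
  have hp0 : 0 < p := by linarith
  set σ := 1 / p with hσ
  have h0 : 0 < σ := by positivity
  have hσp : σ * p = 1 := by rw [hσ]; field_simp
  have h400 : 400 * (n : ℝ) ^ 2 * σ ≤ 1 := by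
    rw [← hσp, mul_comm]
    gcongr
  have h1 : σ ≤ 1 / 2 := by nlinarith
  obtain ⟨hx2, hS⟩ := est2 h0 hn h400 γ hΛ hγ hγn
  have hE3 := fun m (hm : 1 ≤ m) (hmn : m ≤ n) => est3 h0 h1 hm hmn γ hΛ hγ
  set D := Real.sqrt (TT n γ) with hD
  have hD0 : 0 ≤ D := Real.sqrt_nonneg _
  have hDD : D ^ 2 = TT n γ := Real.sq_sqrt (C0.TT_nonneg n γ)
  rw [← hDD]
  set x := γ 0 with hx
  have hx1 : x ≤ 1.011 := by
    by_contra hcon
    push Not at hcon
    nlinarith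
  have hr2 : (2 : ℝ) ≤ p / 2 := by linarith
  have hr199 : 199 * (n : ℝ) ^ 2 ≤ p / 2 - 1 := by linarith
  have hr1 : 0 ≤ p / 2 - 1 := by linarith
  have hb0 : 0 < x ^ 2 := by linarith
  set t := p / 2 * (x ^ 2 - 1) with ht
  have ht0 : 0 ≤ t := mul_nonneg (by linarith) (by linarith)
  have hexp : (x ^ 2) ^ (p / 2) ≤ Real.exp t := rpow_le_exp (by linarith) hb0
  have hpt : ph (p / 2) (x ^ 2) ≤ Real.exp t := by
    unfold ph
    rw [← ht]
    linarith
  have hS0 := SS_nonneg n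
  have hSn := SS_le' hn
  have hlog := log_le hn
  have hlog0 : 0 ≤ Real.log n := Real.log_nonneg hn1
  have hz0 : 0 ≤ (n : ℝ) * D := by positivity
  rcases le_total ((n : ℝ) * D) 1 with hz | hz
  · -- small `z`
    have h3 := hE3 n hn le_rfl
    rw [Ico_self, sum_empty, mul_zero, add_zero] at h3
    have h4 : x ^ 2 - 1 ≤ 6.066 * (σ * (n * D)) := by
      have : σ * (6 * x * D * n) = 6 * x * (σ * (n * D)) := by ring
      rw [this] at h3
      have h5 : 6 * x * (σ * (n * D)) ≤ 6 * 1.011 * (σ * (n * D)) := by gcongr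
      linarith
    have h6 : t ≤ 3.5 := by
      have : t ≤ p / 2 * (6.066 * (σ * (n * D))) := mul_le_mul_of_nonneg_left h4 (by linarith)
      have h7 : p / 2 * (6.066 * (σ * (n * D))) = (σ * p) * (3.033 * (n * D)) := by ring
      rw [h7, hσp] at this
      linarith
    have h8 : (x ^ 2) ^ (p / 2) ≤ 33.3 := hexp.trans ((Real.exp_le_exp.2 h6).trans exp_half)
    have h9 := E0.main.2 (p / 2) (x ^ 2) hr2 hb
    have h10 : (x ^ 2 - 1) ^ 2 ≤ (6.066 * (σ * (n * D))) ^ 2 := by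
      have : 0 ≤ x ^ 2 - 1 := by linarith
      gcongr
    calc ph (p / 2) (x ^ 2) ≤ p / 2 * (p / 2 - 1) / 2 * (x ^ 2) ^ (p / 2) * (x ^ 2 - 1) ^ 2 := h9
      _ ≤ p / 2 * (p / 2 - 1) / 2 * 33.3 * (6.066 * (σ * (n * D))) ^ 2 := by
          gcongr
      _ = (p / 2 - 1) * (33.3 * 6.066 ^ 2 / 4 * (σ * p) * (n ^ 2 * σ) * D ^ 2) := by ring
      _ ≤ (p / 2 - 1) * D ^ 2 := by
          apply mul_le_mul_of_nonneg_left _ hr1
          rw [hσp]
          have h11 : 33.3 * 6.066 ^ 2 / 4 * 1 * ((n : ℝ) ^ 2 * σ) ≤ 1 := by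
            have : 0 ≤ (n : ℝ) ^ 2 * σ := by positivity
            norm_num
            linarith
          calc _ ≤ 1 * D ^ 2 := by gcongr
            _ = _ := one_mul _
  · rcases le_total 1 D with hD1 | hD1
    · -- large `D`
      have h3 : t ≤ 4 + 2 * Real.log n := by
        have : t ≤ p / 2 * (σ * (4.15 + 2 * SS n)) := mul_le_mul_of_nonneg_left hS (by linarith)
        have h7 : p / 2 * (σ * (4.15 + 2 * SS n)) = (σ * p) * (2.075 + SS n) := by ring
        rw [h7, hσp] at this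
        have := SS_le hn
        linarith
      have h4 : Real.exp t ≤ 54.7 * (n : ℝ) ^ 2 := by
        refine (Real.exp_le_exp.2 h3).trans ?_
        rw [Real.exp_add]
        have : Real.exp (2 * Real.log n) = (n : ℝ) ^ 2 := by
          rw [two_mul, Real.exp_add, Real.exp_log (by linarith)]
          ring
        rw [this]
        gcongr
        exact exp_four
      have h5 : (1 : ℝ) ≤ D ^ 2 := by nlinarith
      have h6 : (p / 2 - 1) * 1 ≤ (p / 2 - 1) * D ^ 2 := by gcongr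
      linarith
    · -- intermediate
      have hDpos : 0 < D := by
        rcases hD0.eq_or_lt with h | h
        · rw [← h, mul_zero] at hz
          linarith
        · exact h
      set m := ⌊1 / D⌋₊ with hm
      have hm1 : 1 ≤ m := by
        rw [hm, Nat.one_le_floor_iff, le_div_iff₀ hDpos]
        linarith
      have hm1' : (1 : ℝ) ≤ m := by exact_mod_cast hm1
      have hmD : (m : ℝ) ≤ 1 / D := Nat.floor_le (by positivity)
      have hmn : m ≤ n := by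
        have : (m : ℝ) ≤ n := by
          refine hmD.trans ?_
          rw [div_le_iff₀ hDpos]
          linarith
        exact_mod_cast this
      have hmD2 : (m : ℝ) * D ≤ 1 := by rwa [le_div_iff₀ hDpos] at hmD
      have hmD3 : 1 ≤ 2 * (m * D) := by
        have h3 : 1 / D < m + 1 := Nat.lt_floor_add_one _
        rw [div_lt_iff₀ hDpos] at h3
        nlinarith
      have h3 := hE3 m hm1 hmn
      have h4 := harm hm1 hmn
      set L := Real.log ((n : ℝ) / m) with hL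
      have hnm : 1 ≤ (n : ℝ) / m := by
        rw [le_div_iff₀ (by linarith), one_mul]
        exact_mod_cast hmn
      have hL0 : 0 ≤ L := Real.log_nonneg hnm
      have hLn : L ≤ n := by
        have : L ≤ Real.log n := by
          apply Real.log_le_log (by linarith)
          exact div_le_self (by linarith) hm1'
        linarith
      have h5 : ∑ j ∈ Ico m n, (1 / (j : ℝ) + 1 / ((j : ℝ) + 1)) ≤ 1 + 2 * L := by
        have h6 : 1 / (m : ℝ) ≤ 1 := by
          rw [div_le_one (by linarith)]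
          exact hm1'
        have h7 : 0 ≤ 1 / (n : ℝ) := by positivity
        linarith
      have h6 : x ^ 2 - 1 ≤ σ * (6.066 + x ^ 2 * (1 + 2 * L)) := by
        refine h3.trans ?_
        have h7 : 6 * x * D * m ≤ 6.066 := by
          have : 6 * x * D * m = 6 * x * (m * D) := by ring
          rw [this]
          calc 6 * x * (m * D) ≤ 6 * 1.011 * 1 := by gcongr
            _ ≤ _ := by norm_num
        gcongr
      have h7 : t ≤ 3.033 + x ^ 2 / 2 + x ^ 2 * L := by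
        have : t ≤ p / 2 * (σ * (6.066 + x ^ 2 * (1 + 2 * L))) := mul_le_mul_of_nonneg_left h6 (by linarith)
        have h8 : p / 2 * (σ * (6.066 + x ^ 2 * (1 + 2 * L))) =
            (σ * p) * (3.033 + x ^ 2 / 2 + x ^ 2 * L) := by ring
        rw [h8, hσp, one_mul] at this
        exact this
      have h8 : (x ^ 2 - 1) * L ≤ 0.1 := by
        have h9 : x ^ 2 - 1 ≤ σ * (9 * n) := by
          refine hS.trans ?_
          gcongr
          linarith
        calc (x ^ 2 - 1) * L ≤ σ * (9 * n) * n := by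
              gcongr
          _ = 9 / 400 * (400 * (n : ℝ) ^ 2 * σ) := by ring
          _ ≤ 9 / 400 * 1 := by gcongr
          _ ≤ _ := by norm_num
      have h9 : t ≤ 4 + L := by linarith
      have h10 : Real.exp t ≤ 54.7 * ((n : ℝ) / m) := by
        refine (Real.exp_le_exp.2 h9).trans ?_
        rw [Real.exp_add, Real.exp_log (by linarith)]
        gcongr
        exact exp_four
      have h11 : (n : ℝ) / m ≤ 2 * (n * D) := by
        rw [div_le_iff₀ (by linarith)]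
        nlinarith
      have h12 : (n : ℝ) * D ≤ (n * D) ^ 2 := by nlinarith
      have h13 : 199 * (n : ℝ) ^ 2 * D ^ 2 ≤ (p / 2 - 1) * D ^ 2 := by gcongr
      have h14 : 199 * (n : ℝ) ^ 2 * D ^ 2 = 199 * (n * D) ^ 2 := by ring
      nlinarith

/-- the pointwise inequality for all `n ≥ 1` and all `p ≥ 400 n ^ 2` -/
theorem star {n : ℕ} {p : ℝ} (hn : 1 ≤ n) (hp : 400 * (n : ℝ) ^ 2 ≤ p) : Star n p := by
  have hn1 : (1 : ℝ) ≤ n := by exact_mod_cast hn
  have hn2 : (1 : ℝ) ≤ (n : ℝ) ^ 2 := by nlinarith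
  refine C0.main n p hn (by linarith) fun γ hΛ h0 hc => ?_
  rcases le_total ((γ 0) ^ 2) 1 with hb | hb
  · exact caseA hn hp γ hΛ h0 hb
  · rcases hc with hc | hc
    · refine caseA hn hp γ hΛ h0 ?_
      nlinarith
    · exact caseB hn hp γ hΛ h0 hb hc

end Pool.Agent.Run7.h454.RB
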