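import Pool.Agent.Y282.RB.C0
import Pool.Agent.Y282.RB.E0

/-!
# The pointwise inequality of project RB (helper282) for all `n` and all `p ≥ 10 ^ 4 n ^ 5` (helper454)

`Star n p` of `Pool/Agent/Y282/RB/Stm.lean` is proved for `p ≥ 10 ^ 4 n ^ 5`.  The ingredients:

* `|γ 0 - γ i| ≤ i √TT`, hence `|γ 0 ^ 2 - 1| ≤ σ (6 n γ 0 √TT + 3 n ^ 2 TT)` if `Lam = 1`;
* a dual identity `Σ (-1)^j (2 j + 1) u_j y_j = (1 - σ) γ 0 - (-1)^n u_n (n + 1 - σ) γ n`, which gives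
  `γ 0 ^ 2 ≤ 1 + σ (4.2 log n + 8.4)` if in addition `|γ n| ≤ |γ 0|`.
-/

set_option autoImplicit false

open Finset

namespace Pool.Agent.Run7.h454.RB

open Pool.Agent.Y282.RB

/-! ### distances -/

theorem sum_odd (i : ℕ) : ∑ l ∈ range i, (2 * (l : ℝ) + 1) = (i : ℝ) ^ 2 := by
  induction i with
  | zero => simp
  | succ i ih => rw [sum_range_succ, ih]; push_cast; ring

theorem dist_sq (n : ℕ) (γ : ℕ → ℝ) {i : ℕ} (hi : i ≤ n) : (γ 0 - γ i) ^ 2 ≤ (i : ℝ) ^ 2 * TT n γ := by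
  have h := Finset.sum_sq_le_sum_mul_sum_of_sq_eq_mul (range i) (r := fun l => γ l - γ (l + 1))
    (f := fun l : ℕ => (2 * (l : ℝ) + 1)) (g := fun l => (γ l - γ (l + 1)) ^ 2 / (2 * (l : ℝ) + 1))
    (fun l _ => by positivity) (fun l _ => by positivity)
    (fun l _ => by
      have : (2 * (l : ℝ) + 1) ≠ 0 := by positivity
      field_simp)
  rw [sum_odd, Finset.sum_range_sub'] at h
  refine h.trans ?_
  refine mul_le_mul_of_nonneg_left ?_ (by positivity)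
  unfold TT
  exact sum_le_sum_of_subset_of_nonneg (range_mono hi) (fun l _ _ => by positivity)

theorem dist (n : ℕ) (γ : ℕ → ℝ) {i : ℕ} (hi : i ≤ n) :
    |γ i - γ 0| ≤ (i : ℝ) * Real.sqrt (TT n γ) := by
  have h := dist_sq n γ hi
  rw [abs_sub_comm]
  apply abs_le_of_sq_le_sq _ (by positivity)
  rw [mul_pow, Real.sq_sqrt (C0.TT_nonneg n γ)]
  exact h

theorem th_mem {σ : ℝ} (h0 : 0 < σ) (h1 : σ ≤ 1 / 2) (j : ℕ) : 0 ≤ th σ j ∧ 0 ≤ 1 - th σ j := by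
  have hj : (0 : ℝ) ≤ j := Nat.cast_nonneg j
  have e : 0 < 2 * (j : ℝ) + 1 := by positivity
  refine ⟨?_, ?_⟩
  · unfold th
    apply div_nonneg <;> linarith
  · have : 1 - th σ j = ((j : ℝ) + σ) / (2 * j + 1) := by
      unfold th
      field_simp
      ring
    rw [this]
    apply div_nonneg <;> linarith

theorem y_dist {σ : ℝ} (h0 : 0 < σ) (h1 : σ ≤ 1 / 2) (n : ℕ) (γ : ℕ → ℝ) {j : ℕ} (hj : j < n) :
    |yy σ γ j - γ 0| ≤ ((j : ℝ) + 1) * Real.sqrt (TT n γ) := by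
  obtain ⟨ha, hb⟩ := th_mem h0 h1 j
  have e1 := dist n γ hj.le
  have e2 := dist n γ (show j + 1 ≤ n from hj)
  have hD := Real.sqrt_nonneg (TT n γ)
  push_cast at e2
  have e3 : yy σ γ j - γ 0 = th σ j * (γ j - γ 0) + (1 - th σ j) * (γ (j + 1) - γ 0) := by
    unfold yy
    ring
  rw [e3]
  calc |th σ j * (γ j - γ 0) + (1 - th σ j) * (γ (j + 1) - γ 0)|
      ≤ th σ j * |γ j - γ 0| + (1 - th σ j) * |γ (j + 1) - γ 0| := by
        refine (abs_add_le _ _).trans ?_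
        rw [abs_mul, abs_mul, abs_of_nonneg ha, abs_of_nonneg hb]
    _ ≤ th σ j * (((j : ℝ) + 1) * Real.sqrt (TT n γ)) + (1 - th σ j) * (((j : ℝ) + 1) * Real.sqrt (TT n γ)) := by
        gcongr
        nlinarith
    _ = _ := by ring

theorem y0_dist {σ : ℝ} (h0 : 0 < σ) (n : ℕ) (γ : ℕ → ℝ) (hn : 1 ≤ n) :
    |yy σ γ 0 - γ 0| ≤ σ * Real.sqrt (TT n γ) := by
  have e := dist n γ hn
  have e3 : yy σ γ 0 - γ 0 = σ * (γ 1 - γ 0) := by
    unfold yy th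
    norm_num
    ring
  rw [e3, abs_mul, abs_of_pos h0]
  simp only [Nat.cast_one, one_mul] at e
  gcongr

theorem sq_diff {x y d : ℝ} (hx : 0 ≤ x) (h : |y - x| ≤ d) : |x ^ 2 - y ^ 2| ≤ d * (2 * x + d) := by
  have hd : 0 ≤ d := (abs_nonneg _).trans h
  have e : x ^ 2 - y ^ 2 = -(y - x) * (2 * x + (y - x)) := by ring
  rw [e, abs_mul, abs_neg]
  have h2 : |2 * x + (y - x)| ≤ 2 * x + d := by
    refine (abs_add_le _ _).trans ?_
    rw [abs_of_nonneg (by positivity : 0 ≤ 2 * x)]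
    linarith
  gcongr

/-! ### weights -/

theorem kk_pos {σ : ℝ} (h0 : 0 < σ) (h1 : σ ≤ 1 / 2) (j : ℕ) : 0 < kk σ j := by
  unfold kk
  have h3 : (0 : ℝ) ≤ j := Nat.cast_nonneg j
  have h4 : 0 < (j : ℝ) + σ := by linarith
  have h5 : 0 < (j : ℝ) + 1 - σ := by linarith
  positivity

theorem kk_zero (σ : ℝ) : kk σ 0 = 1 / (σ * (1 - σ)) := by
  unfold kk
  norm_num

theorem kk_succ {σ : ℝ} (h0 : 0 < σ) (h1 : σ ≤ 1 / 2) (m : ℕ) :
    kk σ (m + 1) ≤ 1 / ((m : ℝ) + 1) + 1 / ((m : ℝ) + 2) := by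
  unfold kk
  push_cast
  have h3 : (0 : ℝ) ≤ m := Nat.cast_nonneg m
  have h4 : 0 < (m : ℝ) + 1 + σ := by linarith
  have h5 : 0 < (m : ℝ) + 1 + 1 - σ := by linarith
  rw [div_add_div _ _ (by positivity) (by positivity), div_le_div_iff₀ (by positivity) (by positivity)]
  have h6 : ((m : ℝ) + 1) * (m + 2) ≤ (m + 1 + σ) * (m + 1 + 1 - σ) := by nlinarith
  have h7 : (2 * ((m : ℝ) + 1) + 1) * ((m + 1) * (m + 2)) ≤
      (2 * ((m : ℝ) + 1) + 1) * ((m + 1 + σ) * (m + 1 + 1 - σ)) := by gcongr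
  nlinarith [h7]

theorem sum_c (σ x D : ℝ) (n : ℕ) : ∑ j ∈ range n, σ * (6 * x * D + (6 * (j : ℝ) + 1) * D ^ 2) =
    σ * (6 * n * x * D + (3 * (n : ℝ) ^ 2 - 2 * n) * D ^ 2) := by
  induction n with
  | zero => simp
  | succ n ih => rw [sum_range_succ, ih]; push_cast; ring

/-- the first estimate -/
theorem est1 {σ : ℝ} (h0 : 0 < σ) (h1 : σ ≤ 1 / 2) (n : ℕ) (hn : 1 ≤ n) (γ : ℕ → ℝ)
    (hΛ : Lam σ n γ = 1) (hγ : 0 ≤ γ 0) :
    |(γ 0) ^ 2 - 1| ≤ σ * (6 * n * γ 0 * Real.sqrt (TT n γ) + 3 * (n : ℝ) ^ 2 * TT n γ) := by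
  set D := Real.sqrt (TT n γ) with hD
  have hD0 : 0 ≤ D := Real.sqrt_nonneg _
  have hDD : D ^ 2 = TT n γ := Real.sq_sqrt (C0.TT_nonneg n γ)
  set x := γ 0 with hx
  have hK0 : 0 < kk σ 0 := kk_pos h0 h1 0
  have hK : kk σ 0 ≤ KK σ n := by
    unfold KK
    exact single_le_sum (f := fun j => kk σ j) (fun j _ => (kk_pos h0 h1 j).le) (mem_range.2 hn)
  have hKpos : 0 < KK σ n := hK0.trans_le hK
  have hsum : ∑ j ∈ range n, kk σ j * (yy σ γ j) ^ 2 = KK σ n := by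
    unfold Lam at hΛ
    rwa [div_eq_one_iff_eq hKpos.ne'] at hΛ
  have e1 : KK σ n * (x ^ 2 - 1) = ∑ j ∈ range n, kk σ j * (x ^ 2 - (yy σ γ j) ^ 2) := by
    simp only [mul_sub]
    rw [sum_sub_distrib, hsum, ← sum_mul]
    unfold KK
    ring
  have e2 : ∀ j ∈ range n, |kk σ j * (x ^ 2 - (yy σ γ j) ^ 2)| ≤
      kk σ 0 * (σ * (6 * x * D + (6 * (j : ℝ) + 1) * D ^ 2)) := by
    intro j hj
    rw [abs_mul, abs_of_pos (kk_pos h0 h1 j)]
    rcases Nat.eq_zero_or_pos j with rfl | hj0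
    · have h2 := sq_diff hγ (y0_dist h0 n γ hn)
      have h3 : σ * D * (2 * x + σ * D) ≤ σ * (6 * x * D + (6 * ((0 : ℕ) : ℝ) + 1) * D ^ 2) := by
        have : 0 ≤ x * D := mul_nonneg hγ hD0
        have h4 : σ * D * (2 * x + σ * D) = σ * (2 * (x * D) + σ * D ^ 2) := by ring
        rw [h4]
        apply mul_le_mul_of_nonneg_left _ h0.le
        have h5 : σ * D ^ 2 ≤ 1 * D ^ 2 := by
          apply mul_le_mul_of_nonneg_right _ (by positivity)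
          linarith
        push_cast
        linarith
      exact mul_le_mul_of_nonneg_left (h2.trans h3) hK0.le
    · obtain ⟨m, rfl⟩ : ∃ m, j = m + 1 := ⟨j - 1, by omega⟩
      have h2 := sq_diff hγ (y_dist h0 h1 n γ (mem_range.1 hj))
      have h3 := kk_succ h0 h1 m
      have hm : (0 : ℝ) ≤ m := Nat.cast_nonneg m
      have hxD : 0 ≤ x * D := mul_nonneg hγ hD0
      have hs : σ ≤ kk σ 0 * σ * (1 - σ) * σ := by
        rw [kk_zero]
        have : 0 < 1 - σ := by linarith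
        field_simp
        exact le_rfl
      have h4 : (((((m + 1 : ℕ) : ℝ)) + 1) * D * (2 * x + (((m + 1 : ℕ) : ℝ) + 1) * D)) =
          ((m : ℝ) + 2) * (2 * (x * D) + (m + 2) * D ^ 2) := by push_cast; ring
      rw [h4] at h2
      have h5 : kk σ (m + 1) * |x ^ 2 - (yy σ γ (m + 1)) ^ 2| ≤
          (1 / ((m : ℝ) + 1) + 1 / ((m : ℝ) + 2)) * (((m : ℝ) + 2) * (2 * (x * D) + (m + 2) * D ^ 2)) := by
        gcongr
      have h6 : (1 / ((m : ℝ) + 1) + 1 / ((m : ℝ) + 2)) * (((m : ℝ) + 2) * (2 * (x * D) + (m + 2) * D ^ 2))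
          = (2 * m + 3) / (m + 1) * (2 * (x * D)) + (2 * m + 3) * (m + 2) / (m + 1) * D ^ 2 := by
        field_simp
        ring
      have h7 : (2 * (m : ℝ) + 3) / (m + 1) ≤ 3 := by
        rw [div_le_iff₀ (by positivity)]; linarith
      have h8 : (2 * (m : ℝ) + 3) * (m + 2) / (m + 1) ≤ 6 * (m + 1) + 1 := by
        rw [div_le_iff₀ (by positivity)]; nlinarith
      have h9 : kk σ (m + 1) * |x ^ 2 - (yy σ γ (m + 1)) ^ 2| ≤
          6 * x * D + (6 * (((m + 1 : ℕ) : ℝ)) + 1) * D ^ 2 := by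
        refine h5.trans ?_
        rw [h6]
        have h10 : (2 * (m : ℝ) + 3) / (m + 1) * (2 * (x * D)) ≤ 3 * (2 * (x * D)) := by gcongr
        have h11 : (2 * (m : ℝ) + 3) * (m + 2) / (m + 1) * D ^ 2 ≤ (6 * (m + 1) + 1) * D ^ 2 := by gcongr
        push_cast
        linarith
      refine h9.trans ?_
      have h12 : 0 ≤ 6 * x * D + (6 * (((m + 1 : ℕ) : ℝ)) + 1) * D ^ 2 := by positivity
      have h13 : 1 ≤ kk σ 0 * σ := by
        rw [kk_zero]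
        have : 0 < 1 - σ := by linarith
        rw [div_mul_eq_mul_div, one_mul, le_div_iff₀ (by positivity)]
        nlinarith
      calc 6 * x * D + (6 * (((m + 1 : ℕ) : ℝ)) + 1) * D ^ 2
          = 1 * (6 * x * D + (6 * (((m + 1 : ℕ) : ℝ)) + 1) * D ^ 2) := by ring
        _ ≤ (kk σ 0 * σ) * (6 * x * D + (6 * (((m + 1 : ℕ) : ℝ)) + 1) * D ^ 2) := by gcongr
        _ = _ := by ring
  have e3 : KK σ n * |x ^ 2 - 1| ≤ kk σ 0 * (σ * (6 * n * x * D + (3 * (n : ℝ) ^ 2 - 2 * n) * D ^ 2)) := by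
    rw [← sum_c, mul_sum, ← abs_of_pos hKpos, ← abs_mul, e1]
    exact (abs_sum_le_sum_abs _ _).trans (sum_le_sum e2)
  have e4 : kk σ 0 * |x ^ 2 - 1| ≤ KK σ n * |x ^ 2 - 1| := by gcongr
  have e5 := le_of_mul_le_mul_left (e4.trans e3) hK0
  refine e5.trans ?_
  rw [← hDD]
  have hn0 : (0 : ℝ) ≤ n := Nat.cast_nonneg n
  have : (3 * (n : ℝ) ^ 2 - 2 * n) * D ^ 2 ≤ 3 * (n : ℝ) ^ 2 * D ^ 2 := by
    have : 0 ≤ D ^ 2 := by positivity
    nlinarith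
  gcongr

end Pool.Agent.Run7.h454.RB
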