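import Pool.Agent.Run7.h454.RB.E

/-!
# Bound for `γ 0` when `|γ n| ≤ |γ 0|` (helper454)
-/

set_option autoImplicit false

open Finset

namespace Pool.Agent.Run7.h454.RB

open Pool.Agent.Y282.RB

/-- the dual weights -/
noncomputable def uu (σ : ℝ) : ℕ → ℝ
  | 0 => 1
  | (j + 1) => uu σ j * (((j : ℝ) + σ) / ((j : ℝ) + 2 - σ))

theorem uu_pos {σ : ℝ} (h0 : 0 < σ) (h1 : σ ≤ 1 / 2) (j : ℕ) : 0 < uu σ j := by
  induction j with
  | zero => simp [uu]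
  | succ j ih =>
    unfold uu
    have h3 : (0 : ℝ) ≤ j := Nat.cast_nonneg j
    have h4 : 0 < (j : ℝ) + σ := by linarith
    have h5 : 0 < (j : ℝ) + 2 - σ := by linarith
    positivity

theorem uu_le {σ : ℝ} (h0 : 0 < σ) (h1 : σ ≤ 1 / 2) (m : ℕ) :
    uu σ (m + 1) ≤ σ * (1 + 2 * σ) ^ (m + 1) / (((m : ℝ) + 1) * (m + 2)) := by
  induction m with
  | zero =>
    simp only [uu, Nat.cast_zero, zero_add, one_mul, pow_one]
    rw [div_le_div_iff₀ (by linarith) (by norm_num)]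
    nlinarith [mul_pos h0 h0]
  | succ m ih =>
    have h3 : (0 : ℝ) ≤ m := Nat.cast_nonneg m
    have h4 : 0 < ((m + 1 : ℕ) : ℝ) + σ := by push_cast; linarith
    have h5 : 0 < ((m + 1 : ℕ) : ℝ) + 2 - σ := by push_cast; linarith
    have e : uu σ (m + 1 + 1) = uu σ (m + 1) * ((((m + 1 : ℕ) : ℝ) + σ) / (((m + 1 : ℕ) : ℝ) + 2 - σ)) := rfl
    rw [e]
    have h6 : 0 < (((m + 1 : ℕ) : ℝ) + σ) / (((m + 1 : ℕ) : ℝ) + 2 - σ) := by positivity
    refine (mul_le_mul_of_nonneg_right ih h6.le).trans ?_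
    push_cast at *
    have h7 : ((m : ℝ) + 1 + σ) * (m + 3) ≤ (1 + 2 * σ) * ((m + 1) * (m + 1 + 2 - σ)) := by
      have : (1 + 2 * σ) * ((m + 1) * (m + 1 + 2 - σ)) - ((m : ℝ) + 1 + σ) * (m + 3) =
          σ * (2 * ((m : ℝ) + 1) ^ 2 + 2 * (m + 1) - 2 * ((m + 1) * σ) - 2) := by ring
      have h8 : 0 ≤ 2 * ((m : ℝ) + 1) ^ 2 + 2 * (m + 1) - 2 * ((m + 1) * σ) - 2 := by nlinarith
      have h9 := mul_nonneg h0.le h8
      linarith
    have hP : 0 < σ * (1 + 2 * σ) ^ (m + 1) := by positivity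
    rw [div_mul_div_comm, div_le_div_iff₀ (by positivity) (by positivity)]
    have h10 := mul_le_mul_of_nonneg_left h7 (mul_nonneg hP.le (by positivity : 0 ≤ (m : ℝ) + 2))
    calc σ * (1 + 2 * σ) ^ (m + 1) * ((m : ℝ) + 1 + σ) * ((m + 1 + 1) * (m + 1 + 2))
        = σ * (1 + 2 * σ) ^ (m + 1) * ((m : ℝ) + 2) * (((m : ℝ) + 1 + σ) * (m + 3)) := by ring
      _ ≤ _ := h10
      _ = _ := by ring

theorem ident (σ : ℝ) (h0 : 0 < σ) (h1 : σ ≤ 1 / 2) (n : ℕ) (γ : ℕ → ℝ) :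
    ∑ j ∈ range n, (-1) ^ j * ((2 * (j : ℝ) + 1) * uu σ j * yy σ γ j) =
      (1 - σ) * γ 0 - (-1) ^ n * (uu σ n * ((n : ℝ) + 1 - σ) * γ n) := by
  induction n with
  | zero => simp [uu]
  | succ n ih =>
    rw [sum_range_succ, ih]
    have h3 : (0 : ℝ) ≤ n := Nat.cast_nonneg n
    have h5 : (n : ℝ) + 2 - σ ≠ 0 := by
      have : 0 < (n : ℝ) + 2 - σ := by linarith
      exact this.ne'
    have e1 : (2 * (n : ℝ) + 1) * yy σ γ n = ((n : ℝ) + 1 - σ) * γ n + ((n : ℝ) + σ) * γ (n + 1) := by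
      unfold yy th
      have : (2 * (n : ℝ) + 1) ≠ 0 := by positivity
      field_simp
      ring
    have e2 : uu σ (n + 1) * (((n + 1 : ℕ) : ℝ) + 1 - σ) = uu σ n * ((n : ℝ) + σ) := by
      have e : uu σ (n + 1) = uu σ n * (((n : ℝ) + σ) / ((n : ℝ) + 2 - σ)) := rfl
      rw [e]
      push_cast
      have h6 : (n : ℝ) + 1 + 1 - σ ≠ 0 := by
        have : 0 < (n : ℝ) + 1 + 1 - σ := by linarith
        exact this.ne'
      field_simp
      ring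
    rw [e2]
    have e3 : (2 * (n : ℝ) + 1) * uu σ n * yy σ γ n =
        uu σ n * (((n : ℝ) + 1 - σ) * γ n + ((n : ℝ) + σ) * γ (n + 1)) := by
      rw [← e1]; ring
    rw [e3, pow_succ]
    ring

/-- `Σ_{m ≤ j < n} (1 / j + 1 / (j + 1)) ≤ 1 / m - 1 / n + 2 log (n / m)` -/
theorem harm {m n : ℕ} (hm : 1 ≤ m) (hmn : m ≤ n) :
    ∑ j ∈ Ico m n, (1 / (j : ℝ) + 1 / ((j : ℝ) + 1)) ≤ 1 / (m : ℝ) - 1 / n + 2 * Real.log (n / m) := by
  induction n, hmn using Nat.le_induction with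
  | base =>
    have : (m : ℝ) ≠ 0 := by positivity
    simp [this]
  | succ n hn ih =>
    rw [sum_Ico_succ_top hn]
    have hm0 : (0 : ℝ) < m := by exact_mod_cast hm
    have hn0 : (0 : ℝ) < n := by
      have : (0 : ℕ) < n := by omega
      exact_mod_cast this
    have h1 : Real.log (((n + 1 : ℕ) : ℝ) / m) = Real.log (n / m) + Real.log (((n : ℝ) + 1) / n) := by
      rw [← Real.log_mul (by positivity) (by positivity)]
      congr 1
      push_cast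
      field_simp
    have h2 : 1 / ((n : ℝ) + 1) ≤ Real.log (((n : ℝ) + 1) / n) := by
      have := Real.one_sub_inv_le_log_of_pos (show 0 < ((n : ℝ) + 1) / n by positivity)
      have e : 1 - (((n : ℝ) + 1) / n)⁻¹ = 1 / ((n : ℝ) + 1) := by
        field_simp
        ring
      rwa [e] at this
    rw [h1]
    push_cast
    have h3 : 1 / (n : ℝ) + 1 / ((n : ℝ) + 1) = 1 / n - 1 / (n + 1) + 2 * (1 / (n + 1)) := by ring
    rw [h3]
    linarith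

theorem kk_le {σ : ℝ} (h0 : 0 < σ) (h1 : σ ≤ 1 / 2) {j : ℕ} (hj : 1 ≤ j) :
    kk σ j ≤ 1 / (j : ℝ) + 1 / ((j : ℝ) + 1) := by
  obtain ⟨m, rfl⟩ : ∃ m, j = m + 1 := ⟨j - 1, by omega⟩
  have := kk_succ h0 h1 m
  push_cast
  have e : (m : ℝ) + 1 + 1 = m + 2 := by ring
  rw [e]
  exact this

/-- the sum `S` -/
noncomputable def SS (n : ℕ) : ℝ := ∑ j ∈ Ico 1 n, (1 / (j : ℝ) + 1 / ((j : ℝ) + 1))

theorem SS_nonneg (n : ℕ) : 0 ≤ SS n := sum_nonneg fun j _ => by positivity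

theorem SS_le {n : ℕ} (hn : 1 ≤ n) : SS n ≤ 1 + 2 * Real.log n := by
  have := harm le_rfl hn
  simp only [Nat.cast_one, div_one] at this
  have h2 : 0 ≤ 1 / (n : ℝ) := by positivity
  unfold SS
  linarith

theorem log_le {n : ℕ} (hn : 1 ≤ n) : Real.log n ≤ n - 1 :=
  Real.log_le_sub_one_of_pos (by exact_mod_cast hn)

theorem SS_le' {n : ℕ} (hn : 1 ≤ n) : SS n ≤ 2 * n := by
  have := SS_le hn
  have := log_le hn
  linarith

theorem KK_split (σ : ℝ) {n : ℕ} (hn : 1 ≤ n) : KK σ n = kk σ 0 + ∑ j ∈ Ico 1 n, kk σ j := by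
  unfold KK
  rw [range_eq_Ico, sum_eq_sum_Ico_succ_bot (by omega)]

theorem KK_le {σ : ℝ} (h0 : 0 < σ) (h1 : σ ≤ 1 / 2) {n : ℕ} (hn : 1 ≤ n) :
    KK σ n ≤ 1 / (σ * (1 - σ)) + SS n := by
  rw [KK_split σ hn, kk_zero]
  unfold SS
  gcongr with j hj
  exact kk_le h0 h1 (mem_Ico.1 hj).1

/-- the power `(1 + 2 σ) ^ n` -/
theorem q_le {σ : ℝ} (h0 : 0 < σ) {n : ℕ} (hn : 1 ≤ n) (h : 400 * (n : ℝ) ^ 2 * σ ≤ 1) :
    (1 + 2 * σ) ^ n ≤ 1 + 2.01 * n * σ := by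
  have hn1 : (1 : ℝ) ≤ n := by exact_mod_cast hn
  have hns : 400 * (n : ℝ) * σ ≤ 1 := by
    have : 400 * (n : ℝ) * σ ≤ 400 * (n : ℝ) ^ 2 * σ := by
      have : (n : ℝ) ≤ (n : ℝ) ^ 2 := by nlinarith
      gcongr
    linarith
  have h1 : (1 + 2 * σ) ^ n ≤ Real.exp (2 * σ) ^ n := by
    gcongr
    have := Real.add_one_le_exp (2 * σ)
    linarith
  rw [← Real.exp_nat_mul] at h1
  have hx : 0 ≤ (n : ℝ) * (2 * σ) := by positivity
  have h2 := Real.abs_exp_sub_one_sub_id_le (x := (n : ℝ) * (2 * σ)) (by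
    rw [abs_of_nonneg hx]; linarith)
  have h3 := (abs_le.1 h2).2
  nlinarith

end Pool.Agent.Run7.h454.RB
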