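import Pool.Agent.Run7.h454.RB.E2

/-!
# Bound for `γ 0` when `|γ n| ≤ |γ 0|`, continued (helper454)
-/

set_option autoImplicit false

open Finset

namespace Pool.Agent.Run7.h454.RB

open Pool.Agent.Y282.RB

/-- the sum of the dual weights -/
noncomputable def AA (σ : ℝ) (n : ℕ) : ℝ :=
  ∑ j ∈ range n, (2 * (j : ℝ) + 1) * (uu σ j) ^ 2 * (((j : ℝ) + σ) * ((j : ℝ) + 1 - σ))

theorem AA_term {σ : ℝ} (h0 : 0 < σ) (h1 : σ ≤ 1 / 2) {j n : ℕ} (hj : 1 ≤ j) (hjn : j ≤ n) :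
    (2 * (j : ℝ) + 1) * (uu σ j) ^ 2 * (((j : ℝ) + σ) * ((j : ℝ) + 1 - σ)) ≤
      σ ^ 2 * (((1 + 2 * σ) ^ n) ^ 2 * (1 + σ / 2)) * (1 / (j : ℝ) + 1 / ((j : ℝ) + 1)) := by
  obtain ⟨m, rfl⟩ : ∃ m, j = m + 1 := ⟨j - 1, by omega⟩
  have h3 : (0 : ℝ) ≤ m := Nat.cast_nonneg m
  have hu := uu_le h0 h1 m
  have hu0 := uu_pos h0 h1 (m + 1)
  have hq : (1 + 2 * σ) ^ (m + 1) ≤ (1 + 2 * σ) ^ n := by
    apply pow_le_pow_right₀ (by linarith) hjn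
  set q := (1 + 2 * σ) ^ n with hqd
  have hq0 : 0 < q := by positivity
  have hu2 : uu σ (m + 1) ≤ σ * q / (((m : ℝ) + 1) * (m + 2)) := by
    refine hu.trans ?_
    gcongr
  have hu3 : (uu σ (m + 1)) ^ 2 ≤ (σ * q / (((m : ℝ) + 1) * (m + 2))) ^ 2 := by gcongr
  push_cast
  have e1 : ((m : ℝ) + 1 + σ) * ((m : ℝ) + 1 + 1 - σ) = (m + 1) * (m + 2) + σ * (1 - σ) := by ring
  have h4 : ((m : ℝ) + 1 + σ) * ((m : ℝ) + 1 + 1 - σ) ≤ (m + 1) * (m + 2) * (1 + σ / 2) := by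
    rw [e1]
    have : 2 ≤ ((m : ℝ) + 1) * (m + 2) := by nlinarith
    nlinarith [mul_pos h0 h0]
  have h5 : 0 ≤ ((m : ℝ) + 1 + σ) * ((m : ℝ) + 1 + 1 - σ) := by
    rw [e1]
    have : 0 ≤ σ * (1 - σ) := mul_nonneg h0.le (by linarith)
    positivity
  calc (2 * ((m : ℝ) + 1) + 1) * (uu σ (m + 1)) ^ 2 * (((m : ℝ) + 1 + σ) * ((m : ℝ) + 1 + 1 - σ))
      ≤ (2 * ((m : ℝ) + 1) + 1) * (σ * q / (((m : ℝ) + 1) * (m + 2))) ^ 2 *
        ((m + 1) * (m + 2) * (1 + σ / 2)) := by gcongr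
    _ = σ ^ 2 * (q ^ 2 * (1 + σ / 2)) * (1 / ((m : ℝ) + 1) + 1 / ((m : ℝ) + 1 + 1)) := by
        field_simp
        ring

theorem AA_le {σ : ℝ} (h0 : 0 < σ) (h1 : σ ≤ 1 / 2) {n : ℕ} (hn : 1 ≤ n) :
    AA σ n ≤ σ * (1 - σ) + σ ^ 2 * (((1 + 2 * σ) ^ n) ^ 2 * (1 + σ / 2)) * SS n := by
  unfold AA SS
  rw [range_eq_Ico, sum_eq_sum_Ico_succ_bot (by omega), mul_sum]
  have e0 : (2 * ((0 : ℕ) : ℝ) + 1) * (uu σ 0) ^ 2 * ((((0 : ℕ) : ℝ) + σ) * (((0 : ℕ) : ℝ) + 1 - σ)) =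
      σ * (1 - σ) := by
    simp [uu]
  rw [e0]
  refine add_le_add le_rfl (sum_le_sum fun j hj => ?_)
  rw [mem_Ico] at hj
  exact AA_term h0 h1 hj.1 hj.2.le

/-- Cauchy-Schwarz -/
theorem cs {σ : ℝ} (h0 : 0 < σ) (h1 : σ ≤ 1 / 2) (n : ℕ) (γ : ℕ → ℝ)
    (hsum : ∑ j ∈ range n, kk σ j * (yy σ γ j) ^ 2 = KK σ n) :
    (∑ j ∈ range n, (-1) ^ j * ((2 * (j : ℝ) + 1) * uu σ j * yy σ γ j)) ^ 2 ≤ AA σ n * KK σ n := by
  rw [← hsum]
  unfold AA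
  refine Finset.sum_sq_le_sum_mul_sum_of_sq_le_mul (range n) (fun j _ => ?_) (fun j _ => ?_) (fun j _ => ?_)
  · have h3 : (0 : ℝ) ≤ j := Nat.cast_nonneg j
    have h4 : 0 < (j : ℝ) + σ := by linarith
    have h5 : 0 < (j : ℝ) + 1 - σ := by linarith
    positivity
  · exact mul_nonneg (kk_pos h0 h1 j).le (sq_nonneg _)
  · have h3 : (0 : ℝ) ≤ j := Nat.cast_nonneg j
    have h4 : 0 < (j : ℝ) + σ := by linarith
    have h5 : 0 < (j : ℝ) + 1 - σ := by linarith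
    have h6 : ((-1 : ℝ) ^ j) ^ 2 = 1 := by rw [← pow_mul, mul_comm, pow_mul]; norm_num
    rw [mul_pow, h6, one_mul]
    unfold kk
    apply le_of_eq
    field_simp

/-- the second estimate -/
theorem est2 {σ : ℝ} (h0 : 0 < σ) {n : ℕ} (hn : 1 ≤ n) (h : 400 * (n : ℝ) ^ 2 * σ ≤ 1) (γ : ℕ → ℝ)
    (hΛ : Lam σ n γ = 1) (hγ : 0 ≤ γ 0) (hγn : (γ n) ^ 2 ≤ (γ 0) ^ 2) :
    (γ 0) ^ 2 ≤ 1.021 ∧ (γ 0) ^ 2 - 1 ≤ σ * (4.15 + 2 * SS n) := by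
  have hn1 : (1 : ℝ) ≤ n := by exact_mod_cast hn
  have hns : 400 * (n : ℝ) * σ ≤ 1 := by
    have : 400 * (n : ℝ) * σ ≤ 400 * (n : ℝ) ^ 2 * σ := by
      have : (n : ℝ) ≤ (n : ℝ) ^ 2 := by nlinarith
      gcongr
    linarith
  have hs : 400 * σ ≤ 1 := by nlinarith
  have h1 : σ ≤ 1 / 2 := by linarith
  have hK0 : 0 < kk σ 0 := kk_pos h0 h1 0
  have hK : kk σ 0 ≤ KK σ n := by
    unfold KK
    exact single_le_sum (f := fun j => kk σ j) (fun j _ => (kk_pos h0 h1 j).le) (mem_range.2 hn)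
  have hKpos : 0 < KK σ n := hK0.trans_le hK
  have hsum : ∑ j ∈ range n, kk σ j * (yy σ γ j) ^ 2 = KK σ n := by
    unfold Lam at hΛ
    rwa [div_eq_one_iff_eq hKpos.ne'] at hΛ
  set x := γ 0 with hx
  set q := (1 + 2 * σ) ^ n with hq
  have hq1 : q ≤ 1 + 2.01 * n * σ := q_le h0 hn h
  have hq0 : 0 < q := by positivity
  -- the last weight
  have hun : uu σ n * ((n : ℝ) + 1 - σ) ≤ 1.006 * σ := by
    obtain ⟨m, rfl⟩ : ∃ m, n = m + 1 := ⟨n - 1, by omega⟩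
    have hu := uu_le h0 h1 m
    have hm : (0 : ℝ) ≤ m := Nat.cast_nonneg m
    rw [← hq] at hu
    have h2 : 0 ≤ (((m + 1 : ℕ) : ℝ)) + 1 - σ := by push_cast; linarith
    calc uu σ (m + 1) * ((((m + 1 : ℕ) : ℝ)) + 1 - σ)
        ≤ σ * q / (((m : ℝ) + 1) * (m + 2)) * ((((m + 1 : ℕ) : ℝ)) + 1 - σ) :=
          mul_le_mul_of_nonneg_right hu h2
      _ ≤ σ * q / (((m : ℝ) + 1) * (m + 2)) * (m + 2) := by
          gcongr
          push_cast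
          linarith
      _ = σ * q / ((m : ℝ) + 1) := by field_simp
      _ ≤ σ * q / 1 := by
          gcongr
          linarith
      _ ≤ 1.006 * σ := by
          rw [div_one]
          have : q ≤ 1.006 := by linarith
          nlinarith
  have hun0 : 0 ≤ uu σ n * ((n : ℝ) + 1 - σ) := by
    have := uu_pos h0 h1 n
    have h2 : 0 ≤ (n : ℝ) + 1 - σ := by linarith
    positivity
  have hid := ident σ h0 h1 n γ
  have hcs := cs h0 h1 n γ hsum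
  rw [hid, ← hx] at hcs
  have hcs2 : ((1 - 2.006 * σ) * x) ^ 2 ≤ AA σ n * KK σ n := by
    refine le_trans ?_ hcs
    have habs : |γ n| ≤ x := abs_le_of_sq_le_sq hγn hγ
    have h2 : (-1) ^ n * (uu σ n * ((n : ℝ) + 1 - σ) * γ n) ≤ 1.006 * σ * x := by
      refine (le_abs_self _).trans ?_
      rw [abs_mul, abs_pow, abs_neg, abs_one, one_pow, one_mul, abs_mul, abs_of_nonneg hun0]
      gcongr
    have h3 : 0 ≤ (1 - 2.006 * σ) * x := mul_nonneg (by linarith) hγ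
    have h4 : (1 - 2.006 * σ) * x ≤ (1 - σ) * x - (-1) ^ n * (uu σ n * ((n : ℝ) + 1 - σ) * γ n) := by
      linarith
    gcongr
  -- the product
  have hA := AA_le h0 h1 hn
  rw [← hq] at hA
  have hKK := KK_le h0 h1 hn
  have hS0 := SS_nonneg n
  have hSn := SS_le' hn
  have hQ : q ^ 2 * (1 + σ / 2) ≤ 1 + 5 * (n * σ) := by
    have hns0 : 0 ≤ (n : ℝ) * σ := by positivity
    have a1 : q ^ 2 ≤ (1 + 2.01 * n * σ) ^ 2 := by gcongr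
    have a2 : (1 + 2.01 * n * σ) ^ 2 ≤ 1 + 4.04 * (n * σ) := by nlinarith
    have a3 : σ ≤ n * σ := by nlinarith
    calc q ^ 2 * (1 + σ / 2) ≤ (1 + 4.04 * (n * σ)) * (1 + σ / 2) := by
          gcongr
          exact a1.trans a2
      _ ≤ 1 + 5 * (n * σ) := by nlinarith
  have hA2 : AA σ n ≤ σ * (1 - σ) + σ ^ 2 * (1 + 5 * (n * σ)) * SS n := by
    refine hA.trans ?_
    gcongr
  have hAK : AA σ n * KK σ n ≤ 1 + 2 * (σ * SS n) + 0.05 * σ := by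
    have hss : 0 < 1 - σ := by linarith
    have b0 : 0 ≤ σ * (1 - σ) + σ ^ 2 * (1 + 5 * (n * σ)) * SS n := by positivity
    have b1 : AA σ n * KK σ n ≤ (σ * (1 - σ) + σ ^ 2 * (1 + 5 * (n * σ)) * SS n) *
        (1 / (σ * (1 - σ)) + SS n) := by
      gcongr
    refine b1.trans ?_
    have b2 : (σ * (1 - σ) + σ ^ 2 * (1 + 5 * (n * σ)) * SS n) * (1 / (σ * (1 - σ)) + SS n) =
        1 + σ * SS n * ((1 - σ) + (1 + 5 * (n * σ)) * (1 / (1 - σ)) + (1 + 5 * (n * σ)) * (σ * SS n)) := by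
      field_simp
      ring
    rw [b2]
    have b3 : 1 / (1 - σ) ≤ 1 + 1.01 * σ := by
      rw [div_le_iff₀ hss]
      nlinarith
    have b4 : σ * SS n ≤ 2 * (n * σ) := by nlinarith
    have hns0 : 0 ≤ (n : ℝ) * σ := by positivity
    have a3 : σ ≤ n * σ := by nlinarith
    have b5 : (1 - σ) + (1 + 5 * (n * σ)) * (1 / (1 - σ)) + (1 + 5 * (n * σ)) * (σ * SS n) ≤ 2 + 8 * (n * σ) := by
      have c1 : (1 + 5 * (n * σ)) * (1 / (1 - σ)) ≤ (1 + 5 * (n * σ)) * (1 + 1.01 * σ) := by gcongr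
      have c2 : (1 + 5 * (n * σ)) * (σ * SS n) ≤ (1 + 5 * (n * σ)) * (2 * (n * σ)) := by gcongr
      nlinarith
    have b6 : 0 ≤ σ * SS n := by positivity
    have b7 := mul_le_mul_of_nonneg_left b5 b6
    have b8 : σ * SS n * (8 * (n * σ)) ≤ 0.05 * σ := by
      calc σ * SS n * (8 * (n * σ)) ≤ σ * (2 * n) * (8 * (n * σ)) := by gcongr
        _ = 0.04 * σ * (400 * (n : ℝ) ^ 2 * σ) := by ring
        _ ≤ 0.04 * σ * 1 := by gcongr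
        _ ≤ _ := by linarith
    linarith
  have hfin : (1 - 4.012 * σ) * x ^ 2 ≤ 1 + 2 * (σ * SS n) + 0.05 * σ := by
    have := hcs2.trans hAK
    rw [mul_pow] at this
    have h2 : (1 - 4.012 * σ) * x ^ 2 ≤ (1 - 2.006 * σ) ^ 2 * x ^ 2 := by
      gcongr
      nlinarith
    linarith
  have hsS : σ * SS n ≤ 0.005 := by
    have : σ * SS n ≤ 2 * (n * σ) := by nlinarith
    linarith
  have hb : x ^ 2 ≤ 1.021 := by
    have h2 : (1 - 4.012 / 400) * x ^ 2 ≤ (1 - 4.012 * σ) * x ^ 2 := by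
      gcongr
      linarith
    nlinarith
  refine ⟨hb, ?_⟩
  nlinarith

end Pool.Agent.Run7.h454.RB
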